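import Pool.Agent.H55.GWNil.Nomizu

/-!
# The integral of the derivative of a function along a left invariant field vanishes
-/

open scoped ContDiff Topology
open MeasureTheory

namespace Pool.Agent.H55.GWNil

open Pool.Agent.H64.GW.Nil

/-- The integral over the unit cube of a partial derivative of a periodic function vanishes. -/
theorem integral_fderiv_periodic {h : G → ℂ} (hd : ContDiff ℝ 1 h) (j : Fin 6)
    (hp : ∀ x, h (x + ev j) = h x) : ∫ x in Set.Icc (0 : G) 1, fderiv ℝ h x (ev j) = 0 := by
  have hdiff : Differentiable ℝ h := hd.differentiable one_ne_zero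
  have hc : Continuous (fun x => fderiv ℝ h x (ev j)) :=
    (hd.continuous_fderiv one_ne_zero).clm_apply continuous_const
  have hsum : ∀ x : G, (∑ i : Fin 6, (if i = j then fderiv ℝ h x else 0)
      (Pi.single i (1 : ℝ) : G)) = fderiv ℝ h x (ev j) := by
    intro x
    rw [Finset.sum_eq_single j]
    · simp
    · intro i _ hi
      simp [hi]
    · simp
  have key := integral_divergence_of_hasFDerivAt_off_countable' (n := 5) (E := ℂ)
    (0 : Fin (5 + 1) → ℝ) 1 zero_le_one
    (fun i => if i = j then h else 0)
    (fun i x => if i = j then fderiv ℝ h x else 0) ∅ Set.countable_empty ?_ ?_ ?_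
  · have h1 : (∫ x in Set.Icc (0 : G) 1, fderiv ℝ h x (ev j)) =
        ∫ x in Set.Icc (0 : G) 1, ∑ i : Fin 6, (if i = j then fderiv ℝ h x else 0)
          (Pi.single i (1 : ℝ) : G) := by
      congr 1
      funext x
      exact (hsum x).symm
    rw [h1]
    refine key.trans ?_
    apply Finset.sum_eq_zero
    intro i _
    by_cases hi : i = j
    · subst hi
      simp only [if_true]
      rw [sub_eq_zero]
      congr 1
      funext x
      have h2 : (i.insertNth ((1 : Fin (5 + 1) → ℝ) i) x : G) =
          (i.insertNth ((0 : Fin (5 + 1) → ℝ) i) x : G) + ev i := by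
        funext k
        rcases Fin.eq_self_or_eq_succAbove i k with rfl | ⟨k, rfl⟩
        · simp
        · simp [Fin.succAbove_ne]
      rw [h2, hp]
    · simp [hi]
  · intro i
    by_cases hi : i = j
    · simp only [hi, if_true]
      exact hdiff.continuous.continuousOn
    · simp only [hi, if_false]
      exact continuousOn_const
  · intro x _ i
    by_cases hi : i = j
    · simp only [hi, if_true]
      exact (hdiff x).hasFDerivAt
    · simp only [hi, if_false]
      exact hasFDerivAt_const _ _
  · have h2 : (fun x : G => ∑ i : Fin 6, (if i = j then fderiv ℝ h x else 0)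
        (Pi.single i (1 : ℝ) : G)) = fun x => fderiv ℝ h x (ev j) := funext hsum
    exact (h2 ▸ hc : Continuous (fun x : G => ∑ i : Fin 6, (if i = j then fderiv ℝ h x else 0)
        (Pi.single i (1 : ℝ) : G))).continuousOn.integrableOn_compact isCompact_Icc

theorem integral_D_self {j : Fin 6} {f : G → ℂ} (hf : f ∈ W j) :
    ∫ x in Set.Icc (0 : G) 1, D j f x = 0 := by
  have h : (fun x => D j f x) = fun x => fderiv ℝ f x (ev j) := funext fun x => D_self hf x
  rw [h]
  exact integral_fderiv_periodic (W_contDiff_one hf) j (W_periodic hf)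

theorem integral_P {j : Fin 6} {f : G → ℂ} (hf : f ∈ W j) :
    ∫ x in Set.Icc (0 : G) 1, P j f x = ∫ x in Set.Icc (0 : G) 1, f x := by
  have h1 := integral_D_self (I_mem hf)
  have h2 : D j (I j f) = f - P j f := by
    rw [D_I hf, I_D_self hf]
  rw [h2] at h1
  simp only [Pi.sub_apply] at h1
  rw [integral_sub ((W_continuous hf).continuousOn.integrableOn_compact isCompact_Icc)
    ((W_continuous (P_mem hf)).continuousOn.integrableOn_compact isCompact_Icc)] at h1
  exact (sub_eq_zero.1 h1).symm

theorem integral_D_W (j : ℕ) : ∀ (_ : j < 6) (f : G → ℂ) (_ : f ∈ W j) (k : ℕ),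
    ∫ x in Set.Icc (0 : G) 1, D k f x = 0 := by
  induction j with
  | zero =>
    intro _ f hf k
    by_cases hk : k = 0
    · subst hk
      exact integral_D_self (j := 0) hf
    · rw [D_of_lt hf (Nat.pos_of_ne_zero hk)]
      simp
  | succ j ih =>
    intro hj f hf k
    have hf' : f ∈ W ((⟨j + 1, hj⟩ : Fin 6) : ℕ) := hf
    rcases lt_trichotomy k (j + 1) with hk | hk | hk
    · rw [← integral_P (j := ⟨j + 1, hj⟩) (D_mem_W hf' k), ← D_P hf' k]
      exact ih (by omega) _ (P_mem_pred hf) k
    · subst hk
      exact integral_D_self hf'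
    · rw [D_of_lt hf hk]
      simp

/-- The integral over the nilmanifold of the derivative of a function along a left invariant
vector field vanishes. -/
theorem integral_D {f : G → ℂ} (hf : f ∈ Fn) (k : ℕ) :
    ∫ x in Set.Icc (0 : G) 1, D k f x = 0 :=
  integral_D_W 5 (by norm_num) f (mem_W_five hf) k

end Pool.Agent.H55.GWNil
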