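import Mathlib

/-!
# Weighted averages along a direction
-/

open scoped ContDiff Topology
open MeasureTheory

namespace Pool.Agent.H55.GWNil

variable {E : Type} [NormedAddCommGroup E] [NormedSpace ℝ E] [ProperSpace E]

/-- The weighted average of `f` along the segment from `x` to `x + e`, with weight `w`. -/
noncomputable def T {F : Type} [NormedAddCommGroup F] [NormedSpace ℝ F]
    (w : ℝ → ℝ) (e : E) (f : E → F) (x : E) : F :=
  ∫ s in (0 : ℝ)..1, w s • f (x + s • e)

omit [ProperSpace E] in
theorem continuous_line (e : E) : Continuous (fun p : E × ℝ => p.1 + p.2 • e) := by fun_prop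

theorem continuous_T {F : Type} [NormedAddCommGroup F] [NormedSpace ℝ F]
    {w : ℝ → ℝ} (hw : Continuous w) (e : E) {f : E → F} (hf : Continuous f) :
    Continuous (T w e f) := by
  unfold T
  apply intervalIntegral.continuous_parametric_intervalIntegral_of_continuous'
  exact (hw.comp continuous_snd).smul (hf.comp (continuous_line e))

theorem hasFDerivAt_T {F : Type} [NormedAddCommGroup F] [NormedSpace ℝ F]
    {w : ℝ → ℝ} (hw : Continuous w) (e : E) {f : E → F} (hf : ContDiff ℝ 1 f) (x : E) :
    HasFDerivAt (T w e f) (T w e (fderiv ℝ f) x) x := by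
  have hfd : Differentiable ℝ f := hf.differentiable one_ne_zero
  have hfc : Continuous (fderiv ℝ f) := hf.continuous_fderiv one_ne_zero
  have hcont : Continuous (fun p : E × ℝ => w p.2 • fderiv ℝ f (p.1 + p.2 • e)) :=
    (hw.comp continuous_snd).smul (hfc.comp (continuous_line e))
  obtain ⟨C, hC⟩ := ((isCompact_closedBall x 1).prod
    (isCompact_Icc (a := (0 : ℝ)) (b := 1))).exists_bound_of_continuousOn hcont.continuousOn
  have key := intervalIntegral.hasFDerivAt_integral_of_dominated_of_fderiv_le (𝕜 := ℝ)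
    (μ := volume) (a := 0) (b := 1)
    (F := fun x s => w s • f (x + s • e)) (F' := fun x s => w s • fderiv ℝ f (x + s • e))
    (x₀ := x) (s := Metric.closedBall x 1) (bound := fun _ => C)
    (Metric.closedBall_mem_nhds x one_pos)
    (Filter.Eventually.of_forall fun y => ?_) ?_ ?_ ?_ ?_ ?_
  · exact key
  · apply Continuous.aestronglyMeasurable
    exact hw.smul (hf.continuous.comp (by fun_prop))
  · apply Continuous.intervalIntegrable
    exact hw.smul (hf.continuous.comp (by fun_prop))
  · apply Continuous.aestronglyMeasurable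
    exact hw.smul (hfc.comp (by fun_prop))
  · refine Filter.Eventually.of_forall fun t ht y hy => ?_
    refine hC (y, t) ⟨hy, ?_⟩
    rw [Set.uIoc_of_le zero_le_one] at ht
    exact ⟨ht.1.le, ht.2⟩
  · exact intervalIntegrable_const
  · refine Filter.Eventually.of_forall fun t ht y hy => ?_
    have h1 : HasFDerivAt (fun y : E => y + t • e) (ContinuousLinearMap.id ℝ E) y :=
      (hasFDerivAt_id y).add_const _
    have h2 := (hfd (y + t • e)).hasFDerivAt.comp y h1
    rw [ContinuousLinearMap.comp_id] at h2
    exact h2.const_smul (w t)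

theorem fderiv_T {F : Type} [NormedAddCommGroup F] [NormedSpace ℝ F]
    {w : ℝ → ℝ} (hw : Continuous w) (e : E) {f : E → F} (hf : ContDiff ℝ 1 f) :
    fderiv ℝ (T w e f) = T w e (fderiv ℝ f) :=
  funext fun x => (hasFDerivAt_T hw e hf x).fderiv

theorem contDiff_T_nat {w : ℝ → ℝ} (hw : Continuous w) (e : E) (n : ℕ) :
    ∀ (F : Type) [NormedAddCommGroup F] [NormedSpace ℝ F] (f : E → F),
      ContDiff ℝ n f → ContDiff ℝ n (T w e f) := by
  induction n with
  | zero =>
    intro F _ _ f hf
    have : Continuous f := hf.continuous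
    exact contDiff_zero.2 (continuous_T hw e this)
  | succ n ih =>
    intro F _ _ f hf
    have h1 : ContDiff ℝ 1 f := hf.of_le (by exact_mod_cast Nat.succ_le_succ (Nat.zero_le n))
    have hf' := hf
    rw [Nat.cast_add, Nat.cast_one, contDiff_succ_iff_fderiv] at hf' ⊢
    refine ⟨fun x => (hasFDerivAt_T hw e h1 x).differentiableAt, fun h => ?_, ?_⟩
    · exact absurd h (by simp)
    · rw [fderiv_T hw e h1]
      exact ih _ _ hf'.2.2

theorem contDiff_T {F : Type} [NormedAddCommGroup F] [NormedSpace ℝ F]
    {w : ℝ → ℝ} (hw : Continuous w) (e : E) {f : E → F} (hf : ContDiff ℝ ∞ f) :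
    ContDiff ℝ ∞ (T w e f) := by
  rw [contDiff_infty] at hf ⊢
  exact fun n => contDiff_T_nat hw e n F f (hf n)

theorem fderiv_T_apply {w : ℝ → ℝ} (hw : Continuous w) (e : E) {f : E → ℂ} (hf : ContDiff ℝ 1 f)
    (x v : E) : fderiv ℝ (T w e f) x v = ∫ s in (0 : ℝ)..1, w s • fderiv ℝ f (x + s • e) v := by
  rw [fderiv_T hw e hf]
  unfold T
  rw [ContinuousLinearMap.intervalIntegral_apply]
  · rfl
  · apply Continuous.intervalIntegrable
    exact hw.smul ((hf.continuous_fderiv one_ne_zero).comp (by fun_prop))

end Pool.Agent.H55.GWNil
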