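import Pool.Agent.H64.GW.Nil.Frame
import Pool.Agent.H55.GWNil.Par

/-!
# Functions on the nilmanifold depending only on the first coordinates
-/

open scoped ContDiff Topology
open MeasureTheory

namespace Pool.Agent.H55.GWNil

open Pool.Agent.H64.GW.Nil

/-- The linear part of left translation by an element whose first coordinate is `s`. -/
noncomputable def lin (s : ℝ) : G →ₗ[ℝ] G where
  toFun h := ![h 0, h 1, h 2 - s * h 1, h 3 - s * h 2 + s ^ 2 / 2 * h 1,
    h 4 - s * h 3 + s ^ 2 / 2 * h 2 - s ^ 3 / 6 * h 1,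
    h 5 - s * h 4 + s ^ 2 / 2 * h 3 - s ^ 3 / 6 * h 2 + s ^ 4 / 24 * h 1]
  map_add' x y := by
    ext i; fin_cases i <;> simp <;> ring
  map_smul' c x := by
    ext i; fin_cases i <;> simp <;> ring

theorem mul_eq (g x : G) : mul g x = g + lin (g 0) x := by
  ext i; fin_cases i <;> simp [mul, lin]

theorem hasFDerivAt_mul (g x : G) :
    HasFDerivAt (mul g) (LinearMap.toContinuousLinearMap (lin (g 0))) x := by
  have h : mul g = fun x => g + LinearMap.toContinuousLinearMap (lin (g 0)) x := by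
    funext y
    rw [mul_eq]
    rfl
  rw [h]
  exact (ContinuousLinearMap.hasFDerivAt _).const_add g

theorem lin_X (g x : G) (k : ℕ) : lin (g 0) (X k x) = X k (mul g x) := by
  ext i
  have h6 : k = 0 ∨ k = 1 ∨ k = 2 ∨ k = 3 ∨ k = 4 ∨ k = 5 ∨ 6 ≤ k := by omega
  rcases h6 with rfl | rfl | rfl | rfl | rfl | rfl | h6
  · fin_cases i <;> simp [lin, X]
  · fin_cases i <;> simp [lin, X, mul] <;> ring
  · fin_cases i <;> simp [lin, X, mul] <;> ring
  · fin_cases i <;> simp [lin, X, mul] <;> ring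
  · fin_cases i <;> simp [lin, X, mul] <;> ring
  · fin_cases i <;> simp [lin, X, mul, Nat.factorial]
  · have h0 : k ≠ 0 := by omega
    have h1 : ¬ k ≤ 1 := by omega
    have h2 : ¬ k ≤ 2 := by omega
    have h3 : ¬ k ≤ 3 := by omega
    have h4 : ¬ k ≤ 4 := by omega
    have h5 : ¬ k ≤ 5 := by omega
    fin_cases i <;> simp [lin, X, h0, h1, h2, h3, h4, h5]

theorem X_congr {k : ℕ} {x y : G} (h : x 0 = y 0) : X k x = X k y := by
  funext j
  simp only [X, h]

theorem contDiff_X (k : ℕ) : ContDiff ℝ ∞ (X k) := by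
  rw [contDiff_pi]
  intro j
  unfold X
  split_ifs
  · exact contDiff_const
  · exact contDiff_const
  · refine ContDiff.div_const (ContDiff.pow (ContDiff.neg ?_) _) _
    exact contDiff_apply ℝ ℝ 0
  · exact contDiff_const

theorem D_mem {f : G → ℂ} (hf : f ∈ Fn) (k : ℕ) : D k f ∈ Fn := by
  obtain ⟨h1, h2⟩ := hf
  refine ⟨?_, fun γ hγ x => ?_⟩
  · unfold D
    have h3 : ContDiff ℝ ∞ (fderiv ℝ f) := (contDiff_infty_iff_fderiv.1 h1).2
    exact h3.clm_apply (contDiff_X k)
  · have h3 : (fun y => f (mul γ y)) = f := funext fun y => h2 γ hγ y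
    have h4 : HasFDerivAt f ((fderiv ℝ f (mul γ x)).comp
        (LinearMap.toContinuousLinearMap (lin (γ 0)))) x := by
      have h5 := ((h1.differentiable (by simp)) (mul γ x)).hasFDerivAt.comp x
        (hasFDerivAt_mul γ x)
      have h6 : (f ∘ mul γ) = f := h3
      rwa [h6] at h5
    unfold D
    rw [h4.fderiv, ← lin_X]
    rfl

/-- The projection to the coordinates with index at most `j`. -/
noncomputable def pr (j : ℕ) : G →ₗ[ℝ] G where
  toFun h i := if (i : ℕ) ≤ j then h i else 0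
  map_add' x y := by
    funext i
    by_cases h : (i : ℕ) ≤ j <;> simp [h]
  map_smul' c x := by
    funext i
    by_cases h : (i : ℕ) ≤ j <;> simp [h]

theorem pr_apply (j : ℕ) (x : G) (i : Fin 6) : pr j x i = if (i : ℕ) ≤ j then x i else 0 := rfl

theorem pr_zero_coord (j : ℕ) (x : G) : pr j x 0 = x 0 := by
  rw [pr_apply]
  simp

/-- The smooth functions on the nilmanifold depending only on the coordinates of index at most
`j`. -/
def W (j : ℕ) : Submodule ℂ (G → ℂ) where
  carrier := {f | f ∈ Fn ∧ ∀ x, f (pr j x) = f x}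
  add_mem' := by
    rintro f g ⟨h1, h2⟩ ⟨k1, k2⟩
    exact ⟨Submodule.add_mem _ h1 k1, fun x => by rw [Pi.add_apply, Pi.add_apply, h2, k2]⟩
  zero_mem' := ⟨Submodule.zero_mem _, fun x => rfl⟩
  smul_mem' := by
    rintro c f ⟨h1, h2⟩
    exact ⟨Submodule.smul_mem _ c h1, fun x => by rw [Pi.smul_apply, Pi.smul_apply, h2]⟩

theorem W_contDiff {j : ℕ} {f : G → ℂ} (hf : f ∈ W j) : ContDiff ℝ ∞ f := hf.1.1

theorem W_contDiff_one {j : ℕ} {f : G → ℂ} (hf : f ∈ W j) : ContDiff ℝ 1 f :=
  hf.1.1.of_le (by exact_mod_cast le_top)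

theorem W_differentiable {j : ℕ} {f : G → ℂ} (hf : f ∈ W j) : Differentiable ℝ f :=
  (W_contDiff_one hf).differentiable one_ne_zero

theorem W_congr {j : ℕ} {f : G → ℂ} (hf : f ∈ W j) {x y : G} (h : pr j x = pr j y) :
    f x = f y := by
  rw [← hf.2 x, ← hf.2 y, h]

theorem mem_W_five {f : G → ℂ} (hf : f ∈ Fn) : f ∈ W 5 := by
  refine ⟨hf, fun x => ?_⟩
  congr 1
  funext i
  rw [pr_apply, if_pos (by omega)]

theorem pr_pr (j : ℕ) (x : G) : pr j (pr j x) = pr j x := by
  funext i
  simp only [pr_apply]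
  split_ifs <;> rfl

theorem fderiv_W {j : ℕ} {f : G → ℂ} (hf : f ∈ W j) (x v : G) :
    fderiv ℝ f x v = fderiv ℝ f (pr j x) (pr j v) := by
  have h3 : (f ∘ (LinearMap.toContinuousLinearMap (pr j))) = f := funext fun y => hf.2 y
  have h5 := ((W_differentiable hf) (LinearMap.toContinuousLinearMap (pr j) x)).hasFDerivAt.comp x
        (ContinuousLinearMap.hasFDerivAt (LinearMap.toContinuousLinearMap (pr j)))
  rw [h3] at h5
  rw [h5.fderiv]
  rfl

theorem D_mem_W {j : ℕ} {f : G → ℂ} (hf : f ∈ W j) (k : ℕ) : D k f ∈ W j := by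
  refine ⟨D_mem hf.1 k, fun x => ?_⟩
  unfold D
  rw [fderiv_W hf (pr j x), fderiv_W hf x, pr_pr, X_congr (pr_zero_coord j x)]

theorem pr_X_of_lt {j k : ℕ} (h : j < k) (x : G) : pr j (X k x) = 0 := by
  funext i
  rw [pr_apply]
  split_ifs with h1
  · have h2 : k ≠ 0 := by omega
    have h3 : ¬ k ≤ (i : ℕ) := by omega
    simp [X, h2, h3]
  · rfl

theorem D_of_lt {j k : ℕ} {f : G → ℂ} (hf : f ∈ W j) (h : j < k) : D k f = 0 := by
  funext x
  unfold D
  rw [fderiv_W hf, pr_X_of_lt h]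
  simp

/-- The standard basis vector. -/
noncomputable abbrev ev (j : Fin 6) : G := Pi.single j 1

theorem pr_X_self (j : Fin 6) (x : G) : pr j (X j x) = pr j (ev j) := by
  funext i
  simp only [pr_apply]
  split_ifs with h1
  · by_cases h0 : (j : ℕ) = 0
    · have hi : i = j := by omega
      subst hi
      have hi0 : i = 0 := by omega
      subst hi0
      simp [X]
    · by_cases hij : i = j
      · subst hij
        simp [X, h0]
      · have h3 : ¬ (j : ℕ) ≤ (i : ℕ) := by
          intro h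
          exact hij (Fin.ext (le_antisymm h1 h))
        simp [X, h0, h3, hij]
  · rfl

theorem D_self {j : Fin 6} {f : G → ℂ} (hf : f ∈ W j) (x : G) :
    D j f x = fderiv ℝ f x (ev j) := by
  unfold D
  rw [fderiv_W hf, pr_X_self, ← fderiv_W hf]

end Pool.Agent.H55.GWNil
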