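import Pool.Agent.H55.GWNil.Nomizu

/-!
# Nomizu's theorem in degree two for the nilmanifold: the conclusion
-/

open scoped ContDiff Topology
open MeasureTheory

namespace Pool.Agent.H55.GWNil

open Pool.Agent.H64.GW.Nil

/-- The conclusion of Nomizu's theorem for the closed form with coefficients `a`. -/
def Good (j : ℕ) (a : ℕ → ℕ → G → ℂ) : Prop :=
  ∃ (c : ℕ → ℕ → ℂ) (b : ℕ → G → ℂ), (∀ i, b i ∈ W j) ∧ (∀ i, 6 ≤ i → b i = 0) ∧
    (∀ i j, c i j = -c j i) ∧ (∀ i j, 6 ≤ j → c i j = 0) ∧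
    (∀ j k, 1 ≤ j → 1 ≤ k → c (j + 1) k + c j (k + 1) = 0) ∧
    ∀ i j, a i j = (fun _ => c i j) + ddf b i j

theorem W_mono {j k : ℕ} (h : j ≤ k) : W j ≤ W k := by
  intro f hf
  refine ⟨hf.1, fun x => ?_⟩
  refine W_congr hf ?_
  funext i
  simp only [pr_apply]
  split_ifs with h1 h2
  · rfl
  · omega
  · rfl

theorem P_const_of {f : G → ℂ} (hf : f ∈ W 0) : P 0 f = fun _ => P 0 f 0 :=
  funext fun x => W_zero_P hf x 0

theorem eq_const_of_D_zero {f : G → ℂ} (hf : f ∈ W 0) (h : D 0 f = 0) : f = fun _ => f 0 := by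
  have hf' : f ∈ W ((0 : Fin 6) : ℕ) := hf
  have h1 := I_D_self hf'
  have h2 : D ((0 : Fin 6) : ℕ) f = 0 := h
  rw [h2, I_zero] at h1
  have h3 : f = P 0 f := (sub_eq_zero.1 h1.symm)
  funext x
  rw [h3]
  exact W_zero_P hf x 0

theorem zero_of_D_eq {f g : G → ℂ} (hf : f ∈ W 0) (h : D 0 f = g) (hg : D 0 g = 0) : g = 0 := by
  have hf' : f ∈ W ((0 : Fin 6) : ℕ) := hf
  have hg0 : g ∈ W 0 := by
    rw [← h]
    exact D_mem_W hf 0
  have hg' : g ∈ W ((0 : Fin 6) : ℕ) := hg0
  have h1 := I_D_self hg'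
  have h2 : D ((0 : Fin 6) : ℕ) g = 0 := hg
  rw [h2, I_zero] at h1
  have h3 : g = P 0 g := (sub_eq_zero.1 h1.symm)
  rw [h3, ← h]
  exact P_D_self hf'

/-- The recursion for the primitive of the forms with coefficients depending only on the first
coordinate. -/
noncomputable def rec0 (a : ℕ → ℕ → G → ℂ) : ℕ → G → ℂ
  | 0 => 0
  | n + 1 => I 0 (a 0 (5 - n) - rec0 a n)

theorem rec0_mem {a : ℕ → ℕ → G → ℂ} (ha : CW 0 a) (n : ℕ) : rec0 a n ∈ W 0 := by
  induction n with
  | zero => exact Submodule.zero_mem _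
  | succ n ih =>
    have h : a 0 (5 - n) - rec0 a n ∈ W ((0 : Fin 6) : ℕ) := Submodule.sub_mem _ (ha.mem _ _) ih
    exact I_mem h

theorem base {a : ℕ → ℕ → G → ℂ} (ha : CW 0 a) : Good 0 a := by
  -- the coefficients with positive indices
  have hpos : ∀ n : ℕ, ∀ j k, 1 ≤ j → 1 ≤ k → 12 ≤ j + k + n → D 0 (a j k) = 0 := by
    intro n
    induction n with
    | zero =>
      intro j k hj hk hn
      by_cases h6 : 6 ≤ k
      · rw [ha.zero j k h6, D_zero]
      · rw [ha.zero' (by omega), D_zero]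
    | succ n ih =>
      intro j k hj hk hn
      have h1 := ha.closed₀ j k hj hk
      rw [D_of_lt (ha.mem 0 k) hj, D_of_lt (ha.mem 0 j) hk] at h1
      have h2 : D 0 (a j k) = -(a (j + 1) k + a j (k + 1)) := by
        linear_combination (exp := 1) h1
      rw [h2]
      refine zero_of_D_eq (ha.mem j k) h2 ?_
      rw [D_neg, D_add (ha.mem _ _) (ha.mem _ _), ih (j + 1) k (by omega) hk (by omega),
        ih j (k + 1) hj (by omega) (by omega)]
      simp
  have hD0 : ∀ j k, 1 ≤ j → 1 ≤ k → D 0 (a j k) = 0 := fun j k hj hk =>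
    hpos 12 j k hj hk (by omega)
  have hrel : ∀ j k, 1 ≤ j → 1 ≤ k → a (j + 1) k + a j (k + 1) = 0 := by
    intro j k hj hk
    have h1 := ha.closed₀ j k hj hk
    rw [D_of_lt (ha.mem 0 k) hj, D_of_lt (ha.mem 0 j) hk, hD0 j k hj hk] at h1
    linear_combination (exp := 1) h1
  have hconst : ∀ j k, 1 ≤ j → 1 ≤ k → a j k = fun _ => a j k 0 := fun j k hj hk =>
    eq_const_of_D_zero (ha.mem j k) (hD0 j k hj hk)
  -- the primitive
  let b : ℕ → G → ℂ := fun k => if 1 ≤ k ∧ k ≤ 5 then rec0 a (6 - k) else 0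
  have hb : ∀ k, b k ∈ W 0 := by
    intro k
    simp only [b]
    split_ifs
    · exact rec0_mem ha _
    · exact Submodule.zero_mem _
  have hb0 : b 0 = 0 := by simp [b]
  have hb6 : ∀ k, 6 ≤ k → b k = 0 := by
    intro k hk
    have : ¬ (1 ≤ k ∧ k ≤ 5) := by omega
    simp [b, this]
  have hbrec : ∀ k, 1 ≤ k → b k = I 0 (a 0 k - b (k + 1)) := by
    intro k hk
    by_cases h5 : k ≤ 5
    · have h1 : b k = rec0 a (6 - k) := by simp [b, hk, h5]
      have h2 : b (k + 1) = rec0 a (5 - k) := by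
        by_cases h4 : k ≤ 4
        · have h3 : 1 ≤ k + 1 ∧ k + 1 ≤ 5 := by omega
          have h6 : 6 - (k + 1) = 5 - k := by omega
          simp only [b, h3, and_self, if_true, h6]
        · have h3 : k = 5 := by omega
          subst h3
          simp [b, rec0]
      rw [h1, h2]
      have h3 : 6 - k = (5 - k) + 1 := by omega
      rw [h3]
      simp only [rec0]
      have h4 : 5 - (5 - k) = k := by omega
      rw [h4]
    · rw [hb6 k (by omega), hb6 (k + 1) (by omega), ha.zero 0 k (by omega), sub_zero, I_zero]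
  let c : ℕ → ℕ → ℂ := fun i j => if i = 0 then (if j = 0 then 0 else P 0 (a 0 j - b (j + 1)) 0)
    else (if j = 0 then -P 0 (a 0 i - b (i + 1)) 0 else a i j 0)
  refine ⟨c, b, hb, hb6, ?_, ?_, ?_, ?_⟩
  · intro i j
    simp only [c]
    by_cases hi : i = 0 <;> by_cases hj : j = 0 <;> simp only [hi, hj, if_true, if_false]
    · simp
    · simp
    · have h := congrFun (ha.anti i j) 0
      exact h
  · intro i j hj
    have hj0 : j ≠ 0 := by omega
    simp only [c, hj0, if_false]
    split_ifs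
    · rw [ha.zero 0 j hj, hb6 (j + 1) (by omega), sub_zero, P_zero]
      rfl
    · rw [ha.zero i j hj]
      rfl
  · intro j k hj hk
    have hj0 : j ≠ 0 := by omega
    have hk0 : k ≠ 0 := by omega
    simp only [c, hj0, hk0, if_false, Nat.succ_ne_zero]
    exact congrFun (hrel j k hj hk) 0
  · have key : ∀ k, 1 ≤ k → a 0 k = (fun _ => c 0 k) + ddf b 0 k := by
      intro k hk
      have hk0 : k ≠ 0 := by omega
      have hm : a 0 k - b (k + 1) ∈ W ((0 : Fin 6) : ℕ) := Submodule.sub_mem _ (ha.mem _ _) (hb _)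
      have h1 : D 0 (b k) = (a 0 k - b (k + 1)) - P 0 (a 0 k - b (k + 1)) := by
        rw [hbrec k hk]
        have h2 := D_I hm 0
        rw [h2]
        exact I_D_self hm
      rw [ddf_zero _ hk, hb0, D_zero, h1, P_const_of hm]
      simp only [c, hk0, if_true, if_false]
      abel
    intro i k
    by_cases hi : i = 0
    · by_cases hk : k = 0
      · rw [hi, hk, ddf_zero_zero, ha.anti_zero]
        simp [c]
        rfl
      · rw [hi, key k (by omega)]
    · by_cases hk : k = 0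
      · rw [hk, ddf_anti, ha.anti, key i (by omega)]
        have hc : (fun _ : G => c i 0) = -(fun _ : G => c 0 i) := by
          funext x
          simp [c, hi]
        rw [hc]
        abel
      · rw [ddf_pos _ (by omega) (by omega), D_of_lt (hb k) (by omega), D_of_lt (hb i) (by omega),
          sub_zero, add_zero]
        have hc : (fun _ : G => c i k) = fun _ => a i k 0 := by
          funext x
          simp [c, hi, hk]
        rw [hc]
        exact hconst i k (by omega) (by omega)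

theorem good_of_CW (j : ℕ) : ∀ (_ : j < 6) (a : ℕ → ℕ → G → ℂ), CW j a → Good j a := by
  induction j with
  | zero => exact fun _ a ha => base ha
  | succ j ih =>
    intro hj a ha
    have ha' : CW ((⟨j + 1, hj⟩ : Fin 6) : ℕ) a := ha
    have hPa := ha'.P
    have hPa' : CW j (fun i k => P ⟨j + 1, hj⟩ (a i k)) :=
      { mem := fun i k => P_mem_pred (ha.mem i k)
        anti := hPa.anti
        zero := hPa.zero
        closed₀ := hPa.closed₀
        closed₁ := hPa.closed₁ }
    obtain ⟨c, b, hb, hb6, hc1, hc2, hc3, hab⟩ := ih (by omega) _ hPa'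
    obtain ⟨b', hb', hb6', hab'⟩ := homotopy (j := ⟨j + 1, hj⟩) (by simp) (ha'.sub hPa) (by
      intro i k
      rw [P_sub (ha'.mem i k) (P_mem (ha'.mem i k)), P_P (ha'.mem i k), sub_self])
    refine ⟨c, fun i => b i + b' i, fun i => ?_, fun i hi => ?_, hc1, hc2, hc3, fun i k => ?_⟩
    · exact Submodule.add_mem _ (W_mono (by omega) (hb i)) (hb' i)
    · simp only [hb6 i hi, hb6' i hi, add_zero]
    · rw [ddf_add (j := j + 1) (fun i => W_mono (by omega) (hb i)) hb']
      have h1 := hab i k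
      have h2 := hab' i k
      simp only at h1 h2
      linear_combination (exp := 1) h1 + h2

/-- Nomizu's theorem in degree two for the nilmanifold. -/
theorem nomizu {a : ℕ → ℕ → G → ℂ} (ha : Closed a) :
    ∃ (c : ℕ → ℕ → ℂ) (b : ℕ → G → ℂ), (∀ i, b i ∈ Fn) ∧ (∀ i, 6 ≤ i → b i = 0) ∧
      (∀ i j, c i j = -c j i) ∧ (∀ i j, 6 ≤ j → c i j = 0) ∧
      (∀ j k, 1 ≤ j → 1 ≤ k → c (j + 1) k + c j (k + 1) = 0) ∧
      ∀ i j x, a i j x = c i j + dd b i j x := by
  obtain ⟨c, b, h1, h2, h3, h4, h5, h6⟩ := good_of_CW 5 (by norm_num) a (CW_of_closed ha)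
  refine ⟨c, b, fun i => (h1 i).1, h2, h3, h4, h5, fun i j x => ?_⟩
  rw [← ddf_apply, h6 i j]
  rfl

end Pool.Agent.H55.GWNil
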