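import Pool.Agent.H55.GWNil.Per

/-!
# Nomizu's theorem in degree two for the nilmanifold
-/

open scoped ContDiff Topology
open MeasureTheory

namespace Pool.Agent.H55.GWNil

open Pool.Agent.H64.GW.Nil

theorem W_continuous {j : ℕ} {f : G → ℂ} (hf : f ∈ W j) : Continuous f :=
  (W_contDiff_one hf).continuous

theorem T_add {w : ℝ → ℝ} (hw : Continuous w) (e : G) {f g : G → ℂ} (hf : Continuous f)
    (hg : Continuous g) : T w e (f + g) = T w e f + T w e g := by
  funext x
  rw [Pi.add_apply]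
  unfold T
  rw [← intervalIntegral.integral_add]
  · simp only [Pi.add_apply, smul_add]
  · exact (hw.smul (hf.comp (by fun_prop))).intervalIntegrable _ _
  · exact (hw.smul (hg.comp (by fun_prop))).intervalIntegrable _ _

theorem T_neg (w : ℝ → ℝ) (e : G) (f : G → ℂ) : T w e (-f) = -T w e f := by
  funext x
  rw [Pi.neg_apply]
  unfold T
  rw [← intervalIntegral.integral_neg]
  simp only [Pi.neg_apply, smul_neg]

theorem T_sub {w : ℝ → ℝ} (hw : Continuous w) (e : G) {f g : G → ℂ} (hf : Continuous f)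
    (hg : Continuous g) : T w e (f - g) = T w e f - T w e g := by
  rw [sub_eq_add_neg, T_add hw e hf hg.neg, T_neg, sub_eq_add_neg]

theorem T_zero (w : ℝ → ℝ) (e : G) : T w e (0 : G → ℂ) = 0 := by
  funext x
  simp [T]

theorem I_add {j : Fin 6} {f g : G → ℂ} (hf : f ∈ W j) (hg : g ∈ W j) :
    I j (f + g) = I j f + I j g :=
  T_add (by fun_prop) _ (W_continuous hf) (W_continuous hg)

theorem I_sub {j : Fin 6} {f g : G → ℂ} (hf : f ∈ W j) (hg : g ∈ W j) :
    I j (f - g) = I j f - I j g :=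
  T_sub (by fun_prop) _ (W_continuous hf) (W_continuous hg)

theorem I_neg (j : Fin 6) (f : G → ℂ) : I j (-f) = -I j f := T_neg _ _ _

theorem I_zero (j : Fin 6) : I j 0 = 0 := T_zero _ _

theorem P_add {j : Fin 6} {f g : G → ℂ} (hf : f ∈ W j) (hg : g ∈ W j) :
    P j (f + g) = P j f + P j g :=
  T_add continuous_const _ (W_continuous hf) (W_continuous hg)

theorem P_sub {j : Fin 6} {f g : G → ℂ} (hf : f ∈ W j) (hg : g ∈ W j) :
    P j (f - g) = P j f - P j g :=
  T_sub continuous_const _ (W_continuous hf) (W_continuous hg)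

theorem P_neg (j : Fin 6) (f : G → ℂ) : P j (-f) = -P j f := T_neg _ _ _

theorem P_zero (j : Fin 6) : P j 0 = 0 := T_zero _ _

theorem D_add {j : ℕ} {f g : G → ℂ} (hf : f ∈ W j) (hg : g ∈ W j) (k : ℕ) :
    D k (f + g) = D k f + D k g := by
  funext x
  unfold D
  rw [fderiv_add (W_differentiable hf x) (W_differentiable hg x)]
  rfl

theorem D_neg (f : G → ℂ) (k : ℕ) : D k (-f) = -D k f := by
  funext x
  unfold D
  rw [fderiv_neg]
  rfl

theorem D_sub {j : ℕ} {f g : G → ℂ} (hf : f ∈ W j) (hg : g ∈ W j) (k : ℕ) :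
    D k (f - g) = D k f - D k g := by
  rw [sub_eq_add_neg, D_add hf (Submodule.neg_mem _ hg), D_neg, sub_eq_add_neg]

theorem D_zero (k : ℕ) : D k (0 : G → ℂ) = 0 := by
  funext x
  unfold D
  have : (0 : G → ℂ) = fun _ => 0 := rfl
  rw [this]
  simp

/-- Closed two-forms with coefficients in `W j`, in terms of functions. -/
structure CW (j : ℕ) (a : ℕ → ℕ → G → ℂ) : Prop where
  mem : ∀ i k, a i k ∈ W j
  anti : ∀ i k, a i k = -a k i
  zero : ∀ i k, 6 ≤ k → a i k = 0
  closed₀ : ∀ i k, 1 ≤ i → 1 ≤ k →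
    D 0 (a i k) - D i (a 0 k) + D k (a 0 i) + a (i + 1) k + a i (k + 1) = 0
  closed₁ : ∀ h i k, 1 ≤ h → 1 ≤ i → 1 ≤ k →
    D h (a i k) - D i (a h k) + D k (a h i) = 0

theorem CW_of_closed {a : ℕ → ℕ → G → ℂ} (ha : Closed a) : CW 5 a where
  mem i k := mem_W_five (ha.mem i k)
  anti i k := funext fun x => ha.anti i k x
  zero := ha.zero
  closed₀ i k hi hk := funext fun x => ha.closed₀ i k hi hk x
  closed₁ h i k hh hi hk := funext fun x => ha.closed₁ h i k hh hi hk x

/-- The exterior derivative as a function. -/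
noncomputable def ddf (b : ℕ → G → ℂ) (i j : ℕ) : G → ℂ :=
  D i (b j) - D j (b i) + (if i = 0 ∧ 1 ≤ j then b (j + 1) else 0)
    - (if j = 0 ∧ 1 ≤ i then b (i + 1) else 0)

theorem ddf_apply (b : ℕ → G → ℂ) (i j : ℕ) (x : G) : ddf b i j x = dd b i j x := by
  unfold ddf dd
  by_cases h1 : i = 0 ∧ 1 ≤ j <;> by_cases h2 : j = 0 ∧ 1 ≤ i <;> simp [h1, h2]

theorem ddf_anti (b : ℕ → G → ℂ) (i j : ℕ) : ddf b i j = -ddf b j i := by
  unfold ddf
  abel

theorem ddf_pos (b : ℕ → G → ℂ) {i j : ℕ} (hi : 1 ≤ i) (hj : 1 ≤ j) :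
    ddf b i j = D i (b j) - D j (b i) := by
  unfold ddf
  have h1 : ¬ (i = 0 ∧ 1 ≤ j) := by omega
  have h2 : ¬ (j = 0 ∧ 1 ≤ i) := by omega
  rw [if_neg h1, if_neg h2, add_zero, sub_zero]

theorem ddf_zero (b : ℕ → G → ℂ) {j : ℕ} (hj : 1 ≤ j) :
    ddf b 0 j = D 0 (b j) - D j (b 0) + b (j + 1) := by
  unfold ddf
  have h2 : ¬ (j = 0 ∧ 1 ≤ 0) := by omega
  rw [if_pos ⟨rfl, hj⟩, if_neg h2, sub_zero]

theorem ddf_zero_zero (b : ℕ → G → ℂ) : ddf b 0 0 = 0 := by
  unfold ddf
  simp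

theorem ddf_add {j : ℕ} {b c : ℕ → G → ℂ} (hb : ∀ i, b i ∈ W j) (hc : ∀ i, c i ∈ W j)
    (i k : ℕ) : ddf (fun i => b i + c i) i k = ddf b i k + ddf c i k := by
  unfold ddf
  simp only [D_add (hb _) (hc _)]
  by_cases h1 : i = 0 ∧ 1 ≤ k <;> by_cases h2 : k = 0 ∧ 1 ≤ i <;> simp [h1, h2] <;> abel

theorem CW.anti_zero {j : ℕ} {a : ℕ → ℕ → G → ℂ} (ha : CW j a) (i : ℕ) : a i i = 0 := by
  have h := ha.anti i i
  funext x
  have hx := congrFun h x
  rw [Pi.neg_apply] at hx
  rw [Pi.zero_apply]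
  have h2 : (2 : ℂ) * a i i x = 0 := by linear_combination hx
  simpa using h2

theorem CW.zero' {j : ℕ} {a : ℕ → ℕ → G → ℂ} (ha : CW j a) {i k : ℕ} (hi : 6 ≤ i) :
    a i k = 0 := by
  rw [ha.anti, ha.zero k i hi, neg_zero]

theorem CW.P {j : Fin 6} {a : ℕ → ℕ → G → ℂ} (ha : CW j a) :
    CW j (fun i k => P j (a i k)) where
  mem i k := P_mem (ha.mem i k)
  anti i k := by rw [ha.anti i k, P_neg]
  zero i k hk := by rw [ha.zero i k hk, P_zero]
  closed₀ i k hi hk := by
    rw [D_P (ha.mem i k), D_P (ha.mem 0 k), D_P (ha.mem 0 i), ← P_sub, ← P_add, ← P_add, ← P_add,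
      ha.closed₀ i k hi hk, P_zero]
    · exact Submodule.add_mem _ (Submodule.add_mem _ (Submodule.sub_mem _ (D_mem_W (ha.mem _ _) _)
        (D_mem_W (ha.mem _ _) _)) (D_mem_W (ha.mem _ _) _)) (ha.mem _ _)
    · exact ha.mem _ _
    · exact (Submodule.add_mem _ (Submodule.sub_mem _ (D_mem_W (ha.mem _ _) _)
        (D_mem_W (ha.mem _ _) _)) (D_mem_W (ha.mem _ _) _))
    · exact ha.mem _ _
    · exact (Submodule.sub_mem _ (D_mem_W (ha.mem _ _) _) (D_mem_W (ha.mem _ _) _))
    · exact D_mem_W (ha.mem _ _) _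
    · exact D_mem_W (ha.mem _ _) _
    · exact D_mem_W (ha.mem _ _) _
  closed₁ h i k hh hi hk := by
    rw [D_P (ha.mem i k), D_P (ha.mem h k), D_P (ha.mem h i), ← P_sub, ← P_add,
      ha.closed₁ h i k hh hi hk, P_zero]
    · exact (Submodule.sub_mem _ (D_mem_W (ha.mem _ _) _) (D_mem_W (ha.mem _ _) _))
    · exact D_mem_W (ha.mem _ _) _
    · exact D_mem_W (ha.mem _ _) _
    · exact D_mem_W (ha.mem _ _) _

theorem CW.sub {j : ℕ} {a b : ℕ → ℕ → G → ℂ} (ha : CW j a) (hb : CW j b) :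
    CW j (fun i k => a i k - b i k) where
  mem i k := Submodule.sub_mem _ (ha.mem i k) (hb.mem i k)
  anti i k := by rw [ha.anti i k, hb.anti i k]; abel
  zero i k hk := by rw [ha.zero i k hk, hb.zero i k hk, sub_zero]
  closed₀ i k hi hk := by
    rw [D_sub (ha.mem i k) (hb.mem i k), D_sub (ha.mem 0 k) (hb.mem 0 k),
      D_sub (ha.mem 0 i) (hb.mem 0 i)]
    have h1 := ha.closed₀ i k hi hk
    have h2 := hb.closed₀ i k hi hk
    linear_combination (exp := 1) h1 - h2
  closed₁ h i k hh hi hk := by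
    rw [D_sub (ha.mem i k) (hb.mem i k), D_sub (ha.mem h k) (hb.mem h k),
      D_sub (ha.mem h i) (hb.mem h i)]
    have h1 := ha.closed₁ h i k hh hi hk
    have h2 := hb.closed₁ h i k hh hi hk
    linear_combination (exp := 1) h1 - h2

/-- The homotopy in the direction `j ≥ 1`. -/
theorem homotopy {j : Fin 6} (hj : 1 ≤ (j : ℕ)) {a : ℕ → ℕ → G → ℂ} (ha : CW j a)
    (hP : ∀ i k, P j (a i k) = 0) :
    ∃ b : ℕ → G → ℂ, (∀ i, b i ∈ W j) ∧ (∀ i, 6 ≤ i → b i = 0) ∧ ∀ i k, a i k = ddf b i k := by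
  refine ⟨fun i => if i = 0 then I j (a j 0) + I j (I j (a j (j + 1))) else I j (a j i),
    fun i => ?_, fun i hi => ?_, ?_⟩
  · simp only
    split_ifs
    · exact Submodule.add_mem _ (I_mem (ha.mem _ _)) (I_mem (I_mem (ha.mem _ _)))
    · exact I_mem (ha.mem _ _)
  · have h0 : i ≠ 0 := by omega
    simp only [h0, if_false, ha.zero j i hi, I_zero]
  · have hID : ∀ i k, I j (D j (a i k)) = a i k := by
      intro i k
      rw [I_D_self (ha.mem i k), hP, sub_zero]
    have key0 : ∀ k, 1 ≤ k → a 0 k = ddf (fun i => if i = 0 then I j (a j 0) +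
        I j (I j (a j (j + 1))) else I j (a j i)) 0 k := by
      intro k hk
      have hk0 : k ≠ 0 := by omega
      have hk1 : k + 1 ≠ 0 := by omega
      rw [ddf_zero _ hk]
      simp only [hk0, hk1, if_false, if_true]
      rw [D_add (I_mem (ha.mem _ _)) (I_mem (I_mem (ha.mem _ _))), D_I (ha.mem j k),
        D_I (ha.mem j 0), D_I (I_mem (ha.mem _ _)), D_I (ha.mem _ _)]
      have h1 : D k (a j (j + 1)) = -D j (a (j + 1) k) := by
        have h2 := ha.closed₁ j (j + 1) k hj (by omega) hk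
        rw [D_of_lt (ha.mem j k) (by omega : (j : ℕ) < j + 1)] at h2
        linear_combination (exp := 1) h2
      have h3 : D 0 (a j k) - D k (a j 0) + a j (k + 1) = D j (a 0 k) - a (j + 1) k := by
        have h4 := ha.closed₀ j k hj hk
        have h5 : D k (a 0 j) = -D k (a j 0) := by
          rw [ha.anti 0 j, D_neg]
        rw [h5] at h4
        linear_combination (exp := 1) h4
      have h6 : I j (D 0 (a j k)) - I j (D k (a j 0)) + I j (a j (k + 1)) =
          a 0 k - I j (a (j + 1) k) := by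
        rw [← I_sub (D_mem_W (ha.mem _ _) _) (D_mem_W (ha.mem _ _) _),
          ← I_add (Submodule.sub_mem _ (D_mem_W (ha.mem _ _) _) (D_mem_W (ha.mem _ _) _))
          (ha.mem _ _), h3, I_sub (D_mem_W (ha.mem _ _) _) (ha.mem _ _), hID]
      have h7 : I j (D k (a j (j + 1))) = -a (j + 1) k := by
        rw [h1, I_neg, hID]
      rw [h7, I_neg]
      linear_combination (exp := 1) -h6
    intro i k
    by_cases hi : i = 0
    · by_cases hk : k = 0
      · rw [hi, hk, ddf_zero_zero, ha.anti_zero]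
      · rw [hi, key0 k (by omega)]
    · by_cases hk : k = 0
      · rw [hk, ddf_anti, ← key0 i (by omega), ← ha.anti]
      · rw [ddf_pos _ (by omega) (by omega)]
        simp only [hi, hk, if_false]
        rw [D_I (ha.mem _ _), D_I (ha.mem _ _),
          ← I_sub (D_mem_W (ha.mem _ _) _) (D_mem_W (ha.mem _ _) _)]
        have h1 : D i (a j k) - D k (a j i) = D j (a i k) := by
          have h2 := ha.closed₁ j i k hj (by omega) (by omega)
          linear_combination (exp := 1) -h2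
        rw [h1, hID]

end Pool.Agent.H55.GWNil
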