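import Pool.Agent.H55.GWNil.Basic

/-!
# Periodicity and averages of functions on the nilmanifold
-/

open scoped ContDiff Topology
open MeasureTheory

namespace Pool.Agent.H55.GWNil

open Pool.Agent.H64.GW.Nil

theorem int_of_mod24 (c : ℤ) (h : (24 : ℤ) ∣ c) : ∃ n : ℤ, (c : ℝ) / 24 = n := by
  obtain ⟨n, rfl⟩ := h
  refine ⟨n, ?_⟩
  push_cast
  field_simp

theorem dvd_of_zmod (c : ℤ) (h : ((c : ℤ) : ZMod 24) = 0) : (24 : ℤ) ∣ c := by
  exact_mod_cast (ZMod.intCast_zmod_eq_zero_iff_dvd c 24).1 h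

/-- Elements of the lattice, one in each direction. -/
noncomputable def lat (j : Fin 6) : G :=
  match j with
  | 0 => ![1, 0, 0, 0, 0, 0]
  | 1 => ![0, 1, -3 / 2, 11 / 12, -1 / 4, 0]
  | 2 => ![0, 0, 1, -1, 1 / 3, 0]
  | 3 => ![0, 0, 0, 1, -1 / 2, 0]
  | 4 => ![0, 0, 0, 0, 1, 0]
  | 5 => ![0, 0, 0, 0, 0, 1]

theorem lat_mem (j : Fin 6) : lat j ∈ Pool.Agent.H64.GW.Nil.Lat := by
  fin_cases j
  · refine ⟨⟨1, by simp [lat]⟩, fun m => ⟨0, by simp [lat]⟩⟩
  · refine ⟨⟨0, by simp [lat]⟩, fun m => ?_⟩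
    obtain ⟨n, hn⟩ := int_of_mod24 (m ^ 4 - 6 * m ^ 3 + 11 * m ^ 2 - 6 * m) (by
      apply dvd_of_zmod
      push_cast
      generalize (m : ZMod 24) = z
      revert z
      decide)
    refine ⟨n, ?_⟩
    rw [← hn]
    simp [lat]
    ring
  · refine ⟨⟨0, by simp [lat]⟩, fun m => ?_⟩
    obtain ⟨n, hn⟩ := int_of_mod24 (4 * m ^ 3 - 12 * m ^ 2 + 8 * m) (by
      apply dvd_of_zmod
      push_cast
      generalize (m : ZMod 24) = z
      revert z
      decide)
    refine ⟨n, ?_⟩
    rw [← hn]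
    simp [lat]
    ring
  · refine ⟨⟨0, by simp [lat]⟩, fun m => ?_⟩
    obtain ⟨n, hn⟩ := int_of_mod24 (12 * m ^ 2 - 12 * m) (by
      apply dvd_of_zmod
      push_cast
      generalize (m : ZMod 24) = z
      revert z
      decide)
    refine ⟨n, ?_⟩
    rw [← hn]
    simp [lat]
    ring
  · refine ⟨⟨0, by simp [lat]⟩, fun m => ⟨m, by simp [lat]⟩⟩
  · refine ⟨⟨0, by simp [lat]⟩, fun m => ⟨1, by simp [lat]⟩⟩

theorem pr_mul_lat (j : Fin 6) (x : G) : pr j (mul (lat j) x) = pr j (x + ev j) := by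
  funext i
  simp only [pr_apply]
  fin_cases j <;> fin_cases i <;> simp [lat, mul, ev] <;> ring

theorem W_periodic {j : Fin 6} {f : G → ℂ} (hf : f ∈ W j) (x : G) : f (x + ev j) = f x := by
  rw [← W_congr hf (pr_mul_lat j x)]
  exact hf.1.2 _ (lat_mem j) x

theorem pr_mul_add (j : Fin 6) (g x : G) (s : ℝ) :
    pr j (mul g (x + s • ev j)) = pr j (mul g x + s • ev j) := by
  funext i
  simp only [pr_apply]
  fin_cases j <;> fin_cases i <;> simp [mul, ev] <;> ring

theorem pr_pr_add (j : Fin 6) (x : G) (s : ℝ) :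
    pr j (pr j x + s • ev j) = pr j (x + s • ev j) := by
  rw [map_add, map_add, pr_pr]

theorem T_mem_W {w : ℝ → ℝ} (hw : Continuous w) {j : Fin 6} {f : G → ℂ} (hf : f ∈ W j) :
    T w (ev j) f ∈ W j := by
  refine ⟨⟨contDiff_T hw _ (W_contDiff hf), fun γ hγ x => ?_⟩, fun x => ?_⟩
  · unfold T
    congr 1
    funext s
    rw [← W_congr hf (pr_mul_add j γ x s), hf.1.2 γ hγ]
  · unfold T
    congr 1
    funext s
    rw [W_congr hf (pr_pr_add j x s)]

/-- The average in the direction `j`. -/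
noncomputable def P (j : Fin 6) (f : G → ℂ) : G → ℂ := T (fun _ => 1) (ev j) f

/-- The homotopy operator in the direction `j`. -/
noncomputable def I (j : Fin 6) (f : G → ℂ) : G → ℂ := T (fun s => s - 1 / 2) (ev j) f

theorem P_apply (j : Fin 6) (f : G → ℂ) (x : G) :
    P j f x = ∫ s in (0 : ℝ)..1, f (x + s • ev j) := by
  simp [P, T]

theorem I_apply (j : Fin 6) (f : G → ℂ) (x : G) :
    I j f x = ∫ s in (0 : ℝ)..1, (s - 1 / 2) • f (x + s • ev j) := rfl

theorem P_mem {j : Fin 6} {f : G → ℂ} (hf : f ∈ W j) : P j f ∈ W j :=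
  T_mem_W continuous_const hf

theorem I_mem {j : Fin 6} {f : G → ℂ} (hf : f ∈ W j) : I j f ∈ W j :=
  T_mem_W (by fun_prop) hf

theorem D_T {w : ℝ → ℝ} (hw : Continuous w) {j : Fin 6} {f : G → ℂ} (hf : f ∈ W j) (k : ℕ) :
    D k (T w (ev j) f) = T w (ev j) (D k f) := by
  by_cases h0 : (j : ℕ) = 0
  · have hj0 : j = 0 := Fin.ext h0
    subst hj0
    by_cases hk : k = 0
    · subst hk
      funext x
      unfold D
      rw [fderiv_T_apply hw _ (W_contDiff_one hf)]
      rfl
    · have hk' : ((0 : Fin 6) : ℕ) < k := Nat.pos_of_ne_zero hk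
      rw [D_of_lt hf hk', D_of_lt (T_mem_W hw hf) hk']
      funext x
      simp [T]
  · funext x
    unfold D
    rw [fderiv_T_apply hw _ (W_contDiff_one hf)]
    unfold T
    congr 1
    funext s
    have : X k (x + s • ev j) = X k x := by
      apply X_congr
      have hj : (0 : Fin 6) ≠ j := fun h => h0 (by rw [← h]; rfl)
      simp [ev, hj]
    simp only [this]

theorem D_P {j : Fin 6} {f : G → ℂ} (hf : f ∈ W j) (k : ℕ) : D k (P j f) = P j (D k f) :=
  D_T continuous_const hf k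

theorem D_I {j : Fin 6} {f : G → ℂ} (hf : f ∈ W j) (k : ℕ) : D k (I j f) = I j (D k f) :=
  D_T (by fun_prop) hf k

theorem hasDerivAt_line {f : G → ℂ} (hf : Differentiable ℝ f) (x e : G) (s : ℝ) :
    HasDerivAt (fun s : ℝ => f (x + s • e)) (fderiv ℝ f (x + s • e) e) s := by
  have h1 : HasDerivAt (fun s : ℝ => x + s • e) e s := by
    simpa using ((hasDerivAt_id s).smul_const e).const_add x
  exact (hf (x + s • e)).hasFDerivAt.comp_hasDerivAt s h1

theorem P_D_self {j : Fin 6} {f : G → ℂ} (hf : f ∈ W j) : P j (D j f) = 0 := by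
  funext x
  rw [P_apply]
  have h1 : (fun s : ℝ => D j f (x + s • ev j)) =
      fun s : ℝ => fderiv ℝ f (x + s • ev j) (ev j) := by
    funext s
    exact D_self hf _
  rw [h1, intervalIntegral.integral_eq_sub_of_hasDerivAt
    (fun s _ => hasDerivAt_line (W_differentiable hf) x (ev j) s)]
  · simp [W_periodic hf]
  · apply Continuous.intervalIntegrable
    exact (((W_contDiff_one hf).continuous_fderiv one_ne_zero).comp (by fun_prop)).clm_apply
      continuous_const

theorem I_D_self {j : Fin 6} {f : G → ℂ} (hf : f ∈ W j) : I j (D j f) = f - P j f := by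
  funext x
  rw [I_apply, Pi.sub_apply, P_apply]
  have h1 : (fun s : ℝ => (s - 1 / 2) • D j f (x + s • ev j)) =
      fun s : ℝ => (s - 1 / 2) • fderiv ℝ f (x + s • ev j) (ev j) := by
    funext s
    rw [D_self hf]
  rw [h1]
  have hc : Continuous (fun s : ℝ => fderiv ℝ f (x + s • ev j) (ev j)) :=
    (((W_contDiff_one hf).continuous_fderiv one_ne_zero).comp (by fun_prop)).clm_apply
      continuous_const
  have key := intervalIntegral.integral_smul_deriv_eq_deriv_smul (a := 0) (b := 1)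
    (u := fun s : ℝ => s - 1 / 2) (v := fun s : ℝ => f (x + s • ev j)) (u' := fun _ => 1)
    (v' := fun s : ℝ => fderiv ℝ f (x + s • ev j) (ev j))
    (fun s _ => (hasDerivAt_id s).sub_const _)
    (fun s _ => hasDerivAt_line (W_differentiable hf) x (ev j) s)
    intervalIntegrable_const (hc.intervalIntegrable _ _)
  rw [key]
  simp only [one_smul, zero_smul, add_zero, W_periodic hf]
  have : ((1 : ℝ) - 1 / 2) • f x - ((0 : ℝ) - 1 / 2) • f x = f x := by
    rw [← sub_smul]
    norm_num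
  rw [this]

theorem P_of_periodic {j : Fin 6} {f : G → ℂ} (hf : ∀ (x : G) (r : ℝ), f (x + r • ev j) = f x) :
    P j f = f := by
  funext x
  rw [P_apply]
  simp [hf]

theorem P_invariant {j : Fin 6} {f : G → ℂ} (hf : f ∈ W j) (x : G) (r : ℝ) :
    P j f (x + r • ev j) = P j f x := by
  rw [P_apply, P_apply]
  have hp : Function.Periodic (fun s : ℝ => f (x + s • ev j)) 1 := by
    intro s
    have : x + (s + 1) • ev j = (x + s • ev j) + ev j := by
      rw [add_smul, one_smul, add_assoc]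
    simp only [this]
    exact W_periodic hf _
  have h1 := hp.intervalIntegral_add_eq r 0
  rw [zero_add] at h1
  rw [← h1]
  have h2 : (fun s : ℝ => f (x + r • ev j + s • ev j)) =
      fun s : ℝ => (fun s : ℝ => f (x + s • ev j)) (r + s) := by
    funext s
    simp only
    rw [add_smul, add_assoc]
  rw [h2, intervalIntegral.integral_comp_add_left (fun s : ℝ => f (x + s • ev j)) r]
  simp

theorem P_P {j : Fin 6} {f : G → ℂ} (hf : f ∈ W j) : P j (P j f) = P j f :=
  P_of_periodic (P_invariant hf)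

theorem P_mem_pred {j : ℕ} {hj : j + 1 < 6} {f : G → ℂ} (hf : f ∈ W (j + 1)) :
    P ⟨j + 1, hj⟩ f ∈ W j := by
  have hf' : f ∈ W ((⟨j + 1, hj⟩ : Fin 6) : ℕ) := hf
  refine ⟨(P_mem hf').1, fun x => ?_⟩
  rw [← P_invariant hf' (pr j x) (x ⟨j + 1, hj⟩)]
  refine W_congr (P_mem hf') ?_
  funext i
  simp only [pr_apply]
  split_ifs with h1
  · simp only [Pi.add_apply, Pi.smul_apply, pr_apply, ev, Pi.single_apply]
    split_ifs with h2 h3 h3
    · subst h3
      simp at h2
    · simp
    · subst h3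
      simp
    · exfalso
      apply h3
      apply Fin.ext
      simp at h1 ⊢
      omega
  · rfl

theorem W_zero_P {f : G → ℂ} (hf : f ∈ W 0) (x y : G) : P 0 f x = P 0 f y := by
  have hf' : f ∈ W ((0 : Fin 6) : ℕ) := hf
  have h : ∀ x : G, P 0 f x = P 0 f 0 := by
    intro x
    rw [← P_invariant hf' 0 (x 0)]
    refine W_congr (P_mem hf') ?_
    funext i
    simp only [pr_apply]
    split_ifs with h1
    · have hi : i = 0 := Fin.ext (by simpa using h1)
      subst hi
      simp [ev]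
    · rfl
  rw [h x, h y]

end Pool.Agent.H55.GWNil
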